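import Pool.Agent.Run7.h202.RP.Stm

set_option autoImplicit false

/-! Project RP of helper202, piece MID: the middle range (copy of `Pool.Agent.Y395.RW.wcore` with
the constant `156` and the probability `1 / n ^ 8`). -/

namespace Pool.Agent.Run7.h689.RP

open Finset Filter Pool.Agent.H234RC Pool.Agent.TH953.RC Pool.Agent.Y395.RS Pool.Agent.Y395.RW

section

variable {V : Type} [Fintype V] [DecidableEq V]

/-- near-automorphisms of a random graph fix the vertices of a core -/
theorem wcore13 (p : Sym2 V → ℝ) (h0 : ∀ e, 0 ≤ p e) (h1 : ∀ e, p e ≤ 1) (Y : Finset V)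
    (hV : 2 ≤ Fintype.card V)
    (hY : ∀ x ∈ Y, 156 * Real.log (Fintype.card V) + 1 ≤
      ∑ z ∈ Y.erase x, p s(x, z) * (1 - p s(x, z))) :
    pr p (pairs V) (fun F => ∃ y ∈ Y, ¬ Rn (gr F) y) ≤ 1 / (Fintype.card V : ℝ) ^ 8 := by
  classical
  set n := Fintype.card V with hn
  have hn0 : (0 : ℝ) < n := by
    have : 0 < n := by omega
    exact_mod_cast this
  let Ψ : Finset V → Finset (V → V) := fun K =>
    Fintype.piFinset (fun x => if x ∈ K then (univ : Finset V) else {x})
  have hΨc : ∀ K, (Ψ K).card = n ^ K.card := by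
    intro K
    rw [Fintype.card_piFinset]
    have h1 : ∀ x : V, (if x ∈ K then (univ : Finset V) else {x}).card =
        if x ∈ K then n else 1 := by
      intro x
      split_ifs
      · exact card_univ
      · exact card_singleton _
    rw [prod_congr rfl (fun x _ => h1 x), prod_ite, prod_const, prod_const_one, mul_one]
    congr 1
    congr 1
    ext x
    simp
  let 𝒦 : Finset (Finset V) := (univ : Finset V).powerset.filter (fun K => K.Nonempty)
  let P : V × V → Finset V → (V → V) → Finset (Sym2 V) → Prop := fun u K ψ F =>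
    Pool.Agent.Y405.RS.Core2.Hyp Y K {u.1, u.2} ψ ∧ Evw Y K {u.1, u.2} ψ F
  -- the deterministic part
  have hdet : ∀ F, F ⊆ pairs V → (∃ y ∈ Y, ¬ Rn (gr F) y) →
      ∃ u ∈ (univ : Finset (V × V)), ∃ K ∈ 𝒦, ∃ ψ ∈ Ψ K, P u K ψ F := by
    rintro F hF ⟨y, hy, hR⟩
    unfold Rn at hR
    push Not at hR
    obtain ⟨φ, hφ, hy1, hy2, hy3⟩ := hR
    let K : Finset V := Y.filter (fun x => x ≠ φ.2.1 ∧ x ≠ φ.2.2 ∧ φ.1 x ≠ x)
    have hK : ∀ x, x ∈ K ↔ x ∈ Y ∧ x ≠ φ.2.1 ∧ x ≠ φ.2.2 ∧ φ.1 x ≠ x := fun x => mem_filter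
    let ψ : V → V := fun x => if x ∈ K then φ.1 x else x
    have hψ1 : ∀ x, x ∈ K → ψ x = φ.1 x := fun x hx => if_pos hx
    have hψ2 : ∀ x, x ∉ K → ψ x = x := fun x hx => if_neg hx
    refine ⟨(φ.2.1, φ.2.2), mem_univ _, K, ?_, ψ, ?_, ⟨?_, ?_, ?_, ?_, ?_⟩, ?_⟩
    · rw [mem_filter]
      exact ⟨mem_powerset.mpr (subset_univ _), ⟨y, (hK y).mpr ⟨hy, hy1, hy2, hy3⟩⟩⟩
    · rw [Fintype.mem_piFinset]
      intro x
      by_cases hx : x ∈ K
      · rw [if_pos hx]
        exact mem_univ _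
      · rw [if_neg hx, mem_singleton]
        exact hψ2 x hx
    · exact fun x hx => ((hK x).mp hx).1
    · intro x hx hB
      have h1 := (hK x).mp hx
      rw [mem_insert, mem_singleton] at hB
      rcases hB with h | h
      · exact h1.2.1 h
      · exact h1.2.2.1 h
    · intro x hx z hz h
      rw [hψ1 x hx, hψ1 z hz] at h
      exact φ.1.injective h
    · intro x hx
      rw [hψ1 x hx]
      exact ((hK x).mp hx).2.2.2
    · exact hψ2
    · intro x hx z hz hzB hzx
      have h1 := (hK x).mp hx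
      rw [mem_insert, mem_singleton, not_or] at hzB
      have h2 : ψ z = φ.1 z := by
        by_cases hzK : z ∈ K
        · exact hψ1 z hzK
        · rw [hψ2 z hzK]
          by_contra hne
          exact hzK ((hK z).mpr ⟨hz, hzB.1, hzB.2, fun e => hne e.symm⟩)
      rw [hψ1 x hx, h2, ← adj_pairs hF, ← adj_pairs hF]
      exact (hφ x z h1.2.1 h1.2.2.1 hzB.1 hzB.2).symm
  -- the probability of a certificate
  have hP : ∀ u K ψ, pr p (pairs V) (P u K ψ) ≤ ((1 : ℝ) / n) ^ (13 * K.card) := by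
    intro u K ψ
    by_cases hH : Pool.Agent.Y405.RS.Core2.Hyp Y K {u.1, u.2} ψ
    · obtain ⟨g1, g2, g3, g4, g5⟩ := hH
      have h6 := wcert p h0 h1 Y K {u.1, u.2} ψ (156 * Real.log n + 1) g1 g3 g4 g5
        card_le_two (fun x hx => hY x (g1 hx))
      refine (pr_mono h0 h1 fun F _ hF => hF.2).trans (h6.trans ?_)
      have e1 : ((1 : ℝ) / n) ^ (13 * K.card) =
          Real.exp (-((K.card : ℝ) * (156 * Real.log n) / 12)) := by
        rw [one_div, inv_pow, Real.exp_neg]
        congr 1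
        rw [← Real.exp_log hn0, ← Real.exp_nat_mul, Real.log_exp]
        congr 1
        push_cast
        ring
      rw [e1]
      apply Real.exp_le_exp.2
      have : (0 : ℝ) ≤ K.card := Nat.cast_nonneg _
      nlinarith
    · refine (pr_mono h0 h1 (Q := fun _ => False) fun F _ hF => hH hF.1).trans ?_
      rw [pr_false]
      positivity
  -- the union bound
  have hU1 : ∀ u K, pr p (pairs V) (fun F => ∃ ψ ∈ Ψ K, P u K ψ F) ≤
      ((1 : ℝ) / n ^ 12) ^ K.card := by
    intro u K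
    refine (pr_ex h0 h1 _ _ _).trans ((sum_le_sum fun ψ _ => hP u K ψ).trans (le_of_eq ?_))
    rw [sum_const, hΨc, nsmul_eq_mul]
    push_cast
    rw [pow_mul, ← mul_pow]
    congr 1
    field_simp
  have hU2 : ∀ u, pr p (pairs V) (fun F => ∃ K ∈ 𝒦, ∃ ψ ∈ Ψ K, P u K ψ F) ≤ 2 / n ^ 11 := by
    intro u
    refine (pr_ex h0 h1 _ _ _).trans ((sum_le_sum fun K _ => hU1 u K).trans ?_)
    have h1 := Pool.Agent.Y405.RS.Core2.sum_bound (V := V) ((1 : ℝ) / n ^ 12) (by positivity) (by
      rw [← hn]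
      have h2 : (n : ℝ) * (1 / n ^ 12) = 1 / n ^ 11 := by field_simp
      rw [h2, div_le_one (by positivity)]
      have h3 : (1 : ℝ) ≤ n := by
        have : 1 ≤ n := by omega
        exact_mod_cast this
      exact one_le_pow₀ h3)
    refine h1.trans (le_of_eq ?_)
    rw [← hn]
    field_simp
  refine (pr_mono h0 h1 hdet).trans ((pr_ex h0 h1 _ _ _).trans
    ((sum_le_sum fun u _ => hU2 u).trans ?_))
  rw [sum_const, card_univ, Fintype.card_prod, nsmul_eq_mul, ← hn]
  push_cast
  have h1 : (n : ℝ) * n * (2 / n ^ 11) = 1 / n ^ 8 * (2 / n) := by field_simp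
  rw [h1]
  have h2 : (2 : ℝ) / n ≤ 1 := by
    rw [div_le_one hn0]
    exact_mod_cast hV
  exact mul_le_of_le_one_right (by positivity) h2

end

theorem t_MID : Pool.Agent.Run7.h202.RP.MID := by
  have hlog : Tendsto (fun n : ℕ => Real.log n) atTop atTop :=
    Real.tendsto_log_atTop.comp tendsto_natCast_atTop_atTop
  filter_upwards [eventually_ge_atTop 100, hlog.eventually_ge_atTop 1] with n hn hl V _ _ p hV h1 h2
  have hn0 : (100 : ℝ) ≤ n := by exact_mod_cast hn
  have hp0 : 0 ≤ p := by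
    refine le_trans ?_ h1
    positivity
  have hp1 : p ≤ 1 := by linarith
  unfold Pool.Agent.Run7.h202.RP.P
  have key := wcore13 (V := V) (fun _ => p) (fun _ => hp0) (fun _ => hp1) univ (by omega) (by
    intro x _
    rw [sum_const, card_erase_of_mem (mem_univ x), card_univ, hV, nsmul_eq_mul]
    have h3 : ((n - 1 : ℕ) : ℝ) = n - 1 := by
      rw [Nat.cast_sub (by omega)]; simp
    rw [h3]
    have h4 : 400 * Real.log n ≤ p * n := by
      rwa [div_le_iff₀ (by linarith)] at h1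
    have h5 : p / 2 ≤ p * (1 - p) := by nlinarith
    have h6 : (n - 1 : ℝ) * (p / 2) ≤ (n - 1 : ℝ) * (p * (1 - p)) :=
      mul_le_mul_of_nonneg_left h5 (by linarith)
    have h7 : (n : ℝ) * p * (99 / 100) ≤ (n - 1 : ℝ) * p := by nlinarith
    nlinarith)
  rw [hV] at key
  refine (pr_mono (fun _ => hp0) (fun _ => hp1) ?_).trans key
  rintro F _ ⟨y, hy⟩
  exact ⟨y, mem_univ y, hy⟩

end Pool.Agent.Run7.h689.RP
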